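import Pool.Agent.Lib.MP_60922f_co.FIN.Final19

/-!
Every 2-colouring of the natural numbers has an infinite sequence whose pairwise sums and pairwise
products have one colour, or for every `K` and every growth function there are `K` numbers all of
whose finite sums and finite products have one colour; in both cases finite parts have common
extensions of positive upper logarithmic density.
-/

set_option autoImplicit false

namespace Pool.Agent.Results.MP_60922f_co.FiniteCliques

/-- Dichotomy. -/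
theorem result (f : ℕ → Bool) :
    (∃ (c : Bool) (a : ℕ → ℕ), StrictMono a ∧ (∀ i, 1 ≤ a i) ∧
      (∀ i j, i < j → f (a i + a j) = c ∧ f (a i * a j) = c) ∧
      ∀ k : ℕ, ∃ δ > (0 : ℝ), ∀ N₀ : ℕ, ∃ N ≥ N₀, δ * Real.log N ≤
        ∑ y ∈ (Finset.Icc 1 N).filter (fun y => ∀ i < k, f (a i + y) = c ∧ f (a i * y) = c),
          (1 : ℝ) / y) ∨
    (∀ (K : ℕ) (h : ℕ → ℕ), ∃ (c : Bool) (x : Fin K → ℕ), StrictMono x ∧ (∀ i, 1 ≤ x i) ∧
      (∀ i j, i < j → h (x i) < x j) ∧
      (∀ I : Finset (Fin K), I.Nonempty → f (∑ i ∈ I, x i) = c ∧ f (∏ i ∈ I, x i) = c) ∧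
      ∃ δ > (0 : ℝ), ∀ N₀ : ℕ, ∃ N ≥ N₀, δ * Real.log N ≤
        ∑ y ∈ (Finset.Icc 1 N).filter (fun y => ∀ I : Finset (Fin K),
          f (∑ i ∈ I, x i + y) = c ∧ f ((∏ i ∈ I, x i) * y) = c), (1 : ℝ) / y) := by
  rcases FinFS.dichotomyFS f with ⟨c, a, h1, h2, h3, h4⟩ | H
  · left
    refine ⟨c, a, h1, h2, h3, fun k => ?_⟩
    obtain ⟨δ, hδ, H⟩ := h4 k
    refine ⟨δ, hδ, fun N₀ => ?_⟩
    obtain ⟨N, hN, HN⟩ := H N₀
    refine ⟨N, hN, HN.trans (le_of_eq ?_)⟩
    refine Finset.sum_congr ?_ fun _ _ => rfl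
    ext y
    simp only [Finset.mem_filter, Set.mem_ofPred_eq]
  · right
    intro K h
    obtain ⟨c, x, Y, h1, h2, h3, ⟨δ, hδ, h4⟩, h5⟩ := H K h
    -- sums and products over subsets of `K + 1` indices
    have hsum : ∀ y ∈ Y, ∀ I : Finset (Fin (K + 1)), I.Nonempty →
        f (∑ k ∈ I, (Fin.snoc x y : Fin (K + 1) → ℕ) k) = c := by
      intro y hy I hI
      have hJ := (h5 y hy).2 (I.image fun k => {k}) (hI.image _) ?_ ?_
      · rw [Finset.sum_image (fun a _ b _ hab => Finset.singleton_injective hab)] at hJ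
        simpa using hJ
      · intro G hG
        obtain ⟨k, _, rfl⟩ := Finset.mem_image.1 hG
        exact Finset.singleton_nonempty k
      · intro G hG G' hG' hne
        obtain ⟨k, _, rfl⟩ := Finset.mem_image.1 hG
        obtain ⟨k', _, rfl⟩ := Finset.mem_image.1 hG'
        have hkk : k ≠ k' := fun h => hne (by rw [h])
        rcases lt_or_gt_of_ne hkk with h | h
        · left
          simpa using h
        · right
          simpa using h
    have hprod : ∀ y ∈ Y, ∀ I : Finset (Fin (K + 1)), I.Nonempty →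
        f (∏ k ∈ I, (Fin.snoc x y : Fin (K + 1) → ℕ) k) = c := by
      intro y hy I hI
      have hJ := (h5 y hy).2 {I} (Finset.singleton_nonempty I) ?_ ?_
      · simpa using hJ
      · intro G hG
        rw [Finset.mem_singleton] at hG
        rw [hG]; exact hI
      · intro G hG G' hG' hne
        rw [Finset.mem_singleton] at hG hG'
        exact absurd (hG.trans hG'.symm) hne
    have hlast : ∀ I : Finset (Fin K), Fin.last K ∉ I.map Fin.castSuccEmb := by
      intro I hI
      obtain ⟨k, _, hk⟩ := Finset.mem_map.1 hI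
      exact (Fin.castSucc_lt_last k).ne hk
    have e1 : ∀ (y : ℕ) (I : Finset (Fin K)),
        ∑ k ∈ I.map Fin.castSuccEmb, (Fin.snoc x y : Fin (K + 1) → ℕ) k = ∑ i ∈ I, x i := by
      intro y I
      rw [Finset.sum_map]
      refine Finset.sum_congr rfl fun i _ => ?_
      exact Fin.snoc_castSucc (α := fun _ => ℕ) y x i
    have e2 : ∀ (y : ℕ) (I : Finset (Fin K)),
        ∏ k ∈ I.map Fin.castSuccEmb, (Fin.snoc x y : Fin (K + 1) → ℕ) k = ∏ i ∈ I, x i := by
      intro y I
      rw [Finset.prod_map]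
      refine Finset.prod_congr rfl fun i _ => ?_
      exact Fin.snoc_castSucc (α := fun _ => ℕ) y x i
    have e3 : ∀ y : ℕ, (Fin.snoc x y : Fin (K + 1) → ℕ) (Fin.last K) = y := fun y =>
      Fin.snoc_last (α := fun _ => ℕ) y x
    have hYne : ∃ y, y ∈ Y := by
      by_contra hcon
      push Not at hcon
      obtain ⟨N, hN, HN⟩ := h4 2
      have h6 : (0 : ℝ) < Real.log N := Real.log_pos (by exact_mod_cast hN)
      rw [Finset.sum_eq_zero] at HN
      · exact absurd HN (not_le.2 (mul_pos hδ h6))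
      · intro y hy
        classical
        exact absurd (Finset.mem_filter.1 hy).2 (hcon y)
    obtain ⟨y₀, hy₀⟩ := hYne
    refine ⟨c, x, h1, h2, h3, fun I hI => ⟨?_, ?_⟩, δ, hδ, fun N₀ => ?_⟩
    · rw [← e1 y₀ I]
      exact hsum y₀ hy₀ _ (hI.map)
    · rw [← e2 y₀ I]
      exact hprod y₀ hy₀ _ (hI.map)
    · obtain ⟨N, hN, HN⟩ := h4 N₀
      refine ⟨N, hN, HN.trans ?_⟩
      refine Finset.sum_le_sum_of_subset_of_nonneg ?_ fun _ _ _ => by positivity
      intro y hy
      classical
      replace hy := Finset.mem_filter.1 hy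
      rw [Finset.mem_filter]
      refine ⟨hy.1, fun I => ⟨?_, ?_⟩⟩
      · have h8 := hsum y hy.2 (insert (Fin.last K) (I.map Fin.castSuccEmb))
          (Finset.insert_nonempty _ _)
        rw [Finset.sum_insert (hlast I), e1, e3, add_comm] at h8
        exact h8
      · have h8 := hprod y hy.2 (insert (Fin.last K) (I.map Fin.castSuccEmb))
          (Finset.insert_nonempty _ _)
        rw [Finset.prod_insert (hlast I), e2, e3, mul_comm] at h8
        exact h8

end Pool.Agent.Results.MP_60922f_co.FiniteCliques
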