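import Pool.Agent.Lib.MP_60922f_co.LC.S3_79

/-!
Q1 of MP_60922f_co holds for every colouring whose densities in progressions do not drift.
-/

set_option autoImplicit false

open Filter Topology

namespace Pool.Agent.Results.MP_60922f_co.NoDrift

theorem result (c : ℕ → Bool) (R : ℕ) (hR : 0 < R) (A B : ℕ → ℕ)
    (hA : Tendsto A atTop atTop) (hB : Tendsto (fun j => (B j : ℝ) / A j) atTop atTop)
    (h : ∀ q a : ℕ, 0 < q → R ∣ q → R ∣ a → ∃ d : ℝ, ∀ ε > (0 : ℝ), ∃ K₀ : ℕ, ∀ K : ℕ, K₀ ≤ K →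
      ∀ᶠ j in atTop, ∑ n ∈ Finset.Ico (A j) (B j), (1 / (n : ℝ)) *
        |(∑ k ∈ Finset.range K, (if c (q * (n + k) + a) then (1 : ℝ) else 0)) / K - d| ≤
        ε * Real.log (B j / A j)) :
    ∃ x : ℕ → ℕ, StrictMono x ∧ (∀ i, 1 ≤ x i) ∧
      ∃ b : Bool, ∀ i j, i ≠ j → c (x i + x j) = b ∧ c (x i * x j) = b :=
  Pool.Agent.LC79.noDrift_final c R hR A B hA hB h

end Pool.Agent.Results.MP_60922f_co.NoDrift
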