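import Pool.Agent.Lib.MP_60922f_co.LC.S3_79

/-!
Structure of a counterexample to Q1 of MP_60922f_co: on the even numbers it is profinite in mean.
-/

set_option autoImplicit false

open Filter Topology

namespace Pool.Agent.Results.MP_60922f_co.ProfiniteEven

theorem result (c : ℕ → Bool) :
    (∃ x : ℕ → ℕ, StrictMono x ∧ (∀ i, 1 ≤ x i) ∧
      ∃ b : Bool, ∀ i j, i ≠ j → c (x i + x j) = b ∧ c (x i * x j) = b) ∨
    ∀ A B : ℕ → ℕ, Tendsto A atTop atTop → Tendsto (fun j => (B j : ℝ) / A j) atTop atTop →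
      ∃ (φ : ℕ → ℕ) (d : ℕ → ℝ), StrictMono φ ∧
        (∀ t, Tendsto (fun j =>
          (∑ n ∈ (Finset.Ico (A (φ j)) (B (φ j))).filter (fun n => Even n ∧ c (n + t) ≠ c n),
            (1 / (n : ℝ))) / Real.log (B (φ j) / A (φ j))) atTop (𝓝 (d t))) ∧
        ∀ ε > (0 : ℝ), ∃ M : ℕ, 0 < M ∧ ∀ k : ℕ, d (k * M) ≤ ε :=
  Pool.Agent.LC79.structure_final c

end Pool.Agent.Results.MP_60922f_co.ProfiniteEven
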