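import Mathlib
import Pool.Agent.Lib.MP_60922f_co.T43Final

set_option autoImplicit false

namespace Pool.Agent.Results.MP_60922f_co.ThreeColours

/-- There is a 3-colouring of the natural numbers such that every infinite strictly increasing
sequence has indices `i < j` with `a i + a j` and `a i * a j` of different colours. In
particular no infinite sequence has all its pairwise sums and products in one of the three
classes. -/
theorem result : ∃ c : ℕ → Fin 3, ∀ a : ℕ → ℕ, StrictMono a →
    ∃ i j, i < j ∧ c (a i + a j) ≠ c (a i * a j) :=
  ⟨Pool.Agent.Lib.MP_60922f_co.T43.col, Pool.Agent.Lib.MP_60922f_co.T43.three_key⟩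

end Pool.Agent.Results.MP_60922f_co.ThreeColours
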